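import Pool.Agent.Lib.MP_474f70_lc.Final

/-!
# Medvedev degrees of effective subshifts: not every effectively closed degree occurs
-/

set_option autoImplicit false

namespace Pool.Agent.Results.MP_474f70_lc.NotAllDegrees

open Pool.Agent.MP_474f70_lc

/-- There are an infinite, finitely generated, recursively presented group `G` and a nonempty
`Π⁰₁` class `P` such that no set whatsoever of configurations on `G` over a finite alphabet, in
particular no effective subshift on `G`, has the Medvedev degree of `P`. -/
theorem result :
    ∃ (G : Type) (_ : Group G), Infinite G ∧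
      (∃ (k : ℕ) (s : Fin k → G), IsSymmGen s ∧ RecPresented s) ∧
      ∃ P : Set (ℕ → Bool), P.Nonempty ∧ IsPi01 P ∧
        ∀ (k : ℕ) (s : Fin k → G), IsSymmGen s →
          ∀ (a : ℕ) (X : Set (G → Fin a)), ¬ MedvedevEquiv (hat s X) (bits P) :=
  ⟨Gp setA setB, inferInstance, infinite_Gp setA setB AB_disj,
    ⟨54, sg setA setB, isSymmGen_sg, recPresented_sg⟩,
    clsP, clsP_nonempty, isPi01_clsP, fun _ s hs _ X => main s hs X⟩

end Pool.Agent.Results.MP_474f70_lc.NotAllDegrees
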